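import Pool.Agent.H36.RP.Targets

/-!
Row SET of rp_modules (MP_c59857_nt): the prediction of the coordinates by the remote past.
-/

set_option autoImplicit false

open MeasureTheory ProbabilityTheory Filter Topology Finset

namespace Pool.Agent.H19.RP

open Pool.Agent.H89.MT (I1 X pt z1 IsMult)
open Pool.Agent.H36.RP

lemma condExp_lin (κ : Measure X) [IsProbabilityMeasure κ] (F : MeasurableSpace X)
    (hF : F ≤ MeasurableSpace.pi) (f g : X → ℝ) (hf : Integrable f κ)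
    (hg : Integrable g κ) (a b c : ℝ) :
    κ[fun x => a + (b * f x + c * g x) | F] =ᵐ[κ]
      fun x => a + (b * (κ[f | F]) x + c * (κ[g | F]) x) := by
  have h1 : κ[(fun _ => a) + (b • f + c • g) | F] =ᵐ[κ]
      κ[(fun _ => a) | F] + κ[b • f + c • g | F] :=
    condExp_add (integrable_const a) ((hf.smul b).add (hg.smul c)) F
  have h2 : κ[b • f + c • g | F] =ᵐ[κ] κ[b • f | F] + κ[c • g | F] :=
    condExp_add (hf.smul b) (hg.smul c) F
  have h3 : κ[b • f | F] =ᵐ[κ] b • κ[f | F] := condExp_smul b f F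
  have h4 : κ[c • g | F] =ᵐ[κ] c • κ[g | F] := condExp_smul c g F
  have h5 : κ[(fun _ => a) | F] = fun _ => a := condExp_const hF a
  filter_upwards [h1, h2, h3, h4] with x e1 e2 e3 e4
  have e0 : (fun x => a + (b * f x + c * g x)) = (fun _ => a) + (b • f + c • g) := rfl
  rw [e0, e1, Pi.add_apply, e2, Pi.add_apply, e3, e4, h5]
  rfl

lemma int_coord (κ : Measure X) [IsProbabilityMeasure κ] (m : ℤ) :
    Integrable (fun x : X => ((x m : I1) : ℝ)) κ ∧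
      Integrable (fun x : X => ((x m : I1) : ℝ) ^ 2) κ := by
  have hm : Measurable (fun x : X => ((x m : I1) : ℝ)) :=
    measurable_subtype_coe.comp (measurable_pi_apply m)
  have hb : ∀ x : X, |((x m : I1) : ℝ)| ≤ 1 := fun x => abs_le.2 (x m).2
  refine ⟨Integrable.of_bound hm.aestronglyMeasurable 1 (ae_of_all _ fun x => hb x),
    Integrable.of_bound (hm.pow_const 2).aestronglyMeasurable 1 (ae_of_all _ fun x => ?_)⟩
  rw [Real.norm_eq_abs, abs_pow]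
  exact pow_le_one₀ (abs_nonneg _) (hb x)

theorem pf_SET (hP : T_PRD) (hT : T_TAI) : T_SET := by
  intro κ _ hS hSt hTr m ψ
  have hpt : ∀ t : ℝ, (t = -1 ∨ t = 0 ∨ t = 1) → ∀ A B C : ℝ, ∀ v : ℝ,
      (t = -1 → v = A) → (t = 0 → v = B) → (t = 1 → v = C) →
      v = B + ((C - A) / 2 * t + ((C + A) / 2 - B) * t ^ 2) := by
    rintro t (rfl | rfl | rfl) A B C v h1 h2 h3
    · rw [h1 rfl]; ring
    · rw [h2 rfl]; ring
    · rw [h3 rfl]; ring
  have m1 : (-1 : ℝ) ∈ Set.Icc (-1 : ℝ) 1 := ⟨le_rfl, by norm_num⟩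
  have m2 : (0 : ℝ) ∈ Set.Icc (-1 : ℝ) 1 := ⟨by norm_num, by norm_num⟩
  have m3 : (1 : ℝ) ∈ Set.Icc (-1 : ℝ) 1 := ⟨by norm_num, le_rfl⟩
  obtain ⟨A, hA⟩ : ∃ A, A = ψ ⟨-1, m1⟩ := ⟨_, rfl⟩
  obtain ⟨B, hB⟩ : ∃ B, B = ψ ⟨0, m2⟩ := ⟨_, rfl⟩
  obtain ⟨C, hC⟩ : ∃ C, C = ψ ⟨1, m3⟩ := ⟨_, rfl⟩
  have hae : (fun x : X => ψ (x m)) =ᵐ[κ] fun x => B + ((C - A) / 2 * ((x m : I1) : ℝ) +
      ((C + A) / 2 - B) * ((x m : I1) : ℝ) ^ 2) := by
    filter_upwards [hTr] with x hx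
    refine hpt _ (hx m) A B C _ (fun h => ?_) (fun h => ?_) (fun h => ?_)
    · rw [hA]; exact congrArg ψ (Subtype.ext h)
    · rw [hB]; exact congrArg ψ (Subtype.ext h)
    · rw [hC]; exact congrArg ψ (Subtype.ext h)
  have hc1 : κ[fun x : X => ((x m : I1) : ℝ) | past (m - 1)] =ᵐ[κ]
      κ[fun x : X => ((x m : I1) : ℝ) | remote] := by
    refine hT κ _ (m - 1) fun j => ?_
    exact hP κ hS hSt (fun a => ((a : I1) : ℝ)) continuous_subtype_val
      (fun s hs => ⟨(s : ℝ), hs, fun a => rfl⟩) m j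
  have hc2 : κ[fun x : X => ((x m : I1) : ℝ) ^ 2 | past (m - 1)] =ᵐ[κ]
      κ[fun x : X => ((x m : I1) : ℝ) ^ 2 | remote] := by
    refine hT κ _ (m - 1) fun j => ?_
    refine hP κ hS hSt (fun a => ((a : I1) : ℝ) ^ 2) (continuous_subtype_val.pow 2)
      (fun s hs => ⟨1, one_pow 2, fun a => ?_⟩) m j
    show ((s : ℝ) * (a : ℝ)) ^ 2 = 1 * (a : ℝ) ^ 2
    rw [mul_pow, hs]
  obtain ⟨i1, i2⟩ := int_coord κ m
  have h1 := condExp_lin κ (past (m - 1)) (past_le _) _ _ i1 i2 B ((C - A) / 2)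
    ((C + A) / 2 - B)
  have h2 := condExp_lin κ remote remote_le _ _ i1 i2 B ((C - A) / 2) ((C + A) / 2 - B)
  refine (condExp_congr_ae hae).trans (h1.trans ?_)
  refine EventuallyEq.trans ?_ (h2.symm.trans (condExp_congr_ae hae.symm))
  filter_upwards [hc1, hc2] with x e1 e2
  rw [e1, e2]

end Pool.Agent.H19.RP
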