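import Pool.Agent.H36.RP.Targets

/-!
Row TAI of rp_modules (MP_c59857_nt): from all the pasts to the remote past.
-/

set_option autoImplicit false

open MeasureTheory ProbabilityTheory Filter Topology Finset

namespace Pool.Agent.H19.RP

open Pool.Agent.H89.MT (I1 X pt z1 IsMult)
open Pool.Agent.H36.RP

lemma meas_limsup {α : Type*} (_ : MeasurableSpace α) (v : ℕ → α → ℝ)
    (hv : ∀ j, Measurable (v j)) : Measurable (fun x => limsup (fun j => v j x) atTop) :=
  Measurable.limsup hv

theorem pf_TAI : T_TAI := by
  intro κ _ f q h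
  obtain ⟨u, hu⟩ : ∃ u : ℕ → X → ℝ, u = fun j : ℕ => κ[f | past (q - (j : ℤ))] := ⟨_, rfl⟩
  obtain ⟨g, hg⟩ : ∃ g : X → ℝ, g = fun x => limsup (fun j => u j x) atTop := ⟨_, rfl⟩
  -- `g` is measurable for every past
  have hgm : ∀ p : ℤ, Measurable[past p] g := by
    intro p
    obtain ⟨N, hN⟩ : ∃ N : ℕ, q - (N : ℤ) ≤ p := ⟨(q - p).toNat, by omega⟩
    have h1 : g = fun x => limsup (fun j => u (j + N) x) atTop := by
      rw [hg]
      funext x
      exact (limsup_nat_add (fun j => u j x) N).symm
    rw [h1]
    refine meas_limsup (past p) (fun j => u (j + N)) fun j => ?_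
    rw [hu]
    have h2 : Measurable[past (q - ((j + N : ℕ) : ℤ))] (κ[f | past (q - ((j + N : ℕ) : ℤ))]) :=
      stronglyMeasurable_condExp.measurable
    exact h2.mono (past_mono (by push_cast; omega)) le_rfl
  have hgr : Measurable[remote] g := by
    intro s hs
    unfold remote
    rw [MeasurableSpace.measurableSet_iInf]
    exact fun p => hgm p hs
  have hge : κ[f | past q] =ᵐ[κ] g := by
    have h1 : ∀ᵐ x ∂κ, ∀ j : ℕ, (κ[f | past q]) x = u j x := by
      rw [ae_all_iff]
      intro j
      rw [hu]
      exact h j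
    filter_upwards [h1] with x hx
    rw [hg]
    have h2 : (fun j => u j x) = fun _ => (κ[f | past q]) x := by
      funext j
      exact (hx j).symm
    show _ = limsup (fun j => u j x) atTop
    rw [h2, limsup_const]
  have h1 : κ[κ[f | past q] | remote] =ᵐ[κ] κ[f | remote] :=
    condExp_condExp_of_le (remote_le_past q) (past_le q)
  have h2 : κ[κ[f | past q] | remote] =ᵐ[κ] κ[g | remote] := condExp_congr_ae hge
  have h3 : κ[g | remote] = g := by
    refine condExp_of_stronglyMeasurable remote_le ?_ ?_
    · exact Measurable.stronglyMeasurable hgr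
    · exact (integrable_condExp (μ := κ) (f := f) (m := past q)).congr hge
  rw [h3] at h2
  exact hge.trans (h2.symm.trans h1)

end Pool.Agent.H19.RP
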